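import Pool.Agent.H77.BC.Targets

/-!
# MP_9d0bb7_lc, board bcp: row BGN

Bounded generation of the special linear group over a field.
-/

set_option autoImplicit false
set_option linter.unusedSimpArgs false

namespace Pool.Agent.H74.BCP

open Pool.Agent.H77.BC Matrix

variable {K : Type} [Field K]

/-- products of at most `N` transvections -/
def Sh {m : ℕ} (N : ℕ) (A : Matrix (Fin m) (Fin m) K) : Prop :=
  ∃ L : List (TransvectionStruct (Fin m) K), L.length ≤ N ∧
    (L.map TransvectionStruct.toMatrix).prod = A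

theorem Sh.mul {m N M : ℕ} {A B : Matrix (Fin m) (Fin m) K} (hA : Sh N A) (hB : Sh M B) :
    Sh (N + M) (A * B) := by
  obtain ⟨L, h1, rfl⟩ := hA
  obtain ⟨L', h2, rfl⟩ := hB
  refine ⟨L ++ L', ?_, ?_⟩
  · rw [List.length_append]
    exact Nat.add_le_add h1 h2
  · rw [List.map_append, List.prod_append]

theorem Sh.mono {m N M : ℕ} {A : Matrix (Fin m) (Fin m) K} (hA : Sh N A) (h : N ≤ M) :
    Sh M A := by
  obtain ⟨L, h1, h2⟩ := hA
  exact ⟨L, h1.trans h, h2⟩

theorem sh_one {m : ℕ} (N : ℕ) : Sh N (1 : Matrix (Fin m) (Fin m) K) :=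
  ⟨[], Nat.zero_le _, rfl⟩

theorem sh_tr {m : ℕ} {i j : Fin m} (h : i ≠ j) (c : K) : Sh 1 (transvection i j c) :=
  ⟨[⟨i, j, h, c⟩], le_rfl, by simp [TransvectionStruct.toMatrix]⟩

/-- removing a transvection on the left -/
theorem Sh.left {m N : ℕ} {A : Matrix (Fin m) (Fin m) K} {i j : Fin m} (h : i ≠ j) (c : K)
    (hA : Sh N (transvection i j c * A)) : Sh (N + 1) A := by
  have h1 := (sh_tr h (-c)).mul hA
  rw [← mul_assoc, transvection_mul_transvection_same i j h, neg_add_cancel, transvection_zero,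
    one_mul] at h1
  exact h1.mono (by omega)

theorem blm_tr {m : ℕ} (i j : Fin m) (c : K) :
    blm 1 0 (transvection i j c) = transvection i.succ j.succ c := by
  ext a b
  refine Fin.cases ?_ (fun a => ?_) a <;> refine Fin.cases ?_ (fun b => ?_) b
  · simp [transvection, Matrix.single_apply]
  · simp [transvection, Matrix.single_apply, Matrix.one_apply, Fin.ext_iff]
  · simp [transvection, Matrix.single_apply, Matrix.one_apply, Fin.ext_iff]
  · simp [transvection, Matrix.single_apply, Matrix.one_apply, Fin.ext_iff]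

theorem Sh.blm {m N : ℕ} {B : Matrix (Fin m) (Fin m) K} (h : Sh N B) :
    Sh N (Pool.Agent.H77.BC.blm 1 0 B) := by
  obtain ⟨L, h1, rfl⟩ := h
  refine ⟨L.map fun t => ⟨t.i.succ, t.j.succ, fun h => t.hij (Fin.succ_injective _ h), t.c⟩,
    by rw [List.length_map]; exact h1, ?_⟩
  clear h1
  induction L with
  | nil => simp [blm_one]
  | cons t L ih =>
    rw [List.map_cons, List.map_cons, List.prod_cons, ih, List.map_cons, List.prod_cons]
    have h2 := blm_mul (1 : K) 1 0 0 t.toMatrix (L.map TransvectionStruct.toMatrix).prod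
    rw [smul_zero, Matrix.zero_vecMul, add_zero, mul_one] at h2
    rw [← h2]
    congr 1
    exact (blm_tr t.i t.j t.c).symm

theorem blm_single {m : ℕ} (j : Fin m) (c : K) :
    blm 1 (Pi.single j c) 1 = transvection 0 j.succ c := by
  ext a b
  refine Fin.cases ?_ (fun a => ?_) a <;> refine Fin.cases ?_ (fun b => ?_) b
  · simp [transvection, Matrix.single_apply]
  · simp [transvection, Matrix.single_apply, Matrix.one_apply, Fin.ext_iff, Pi.single_apply]
    by_cases h : (b : ℕ) = j
    · simp [h]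
    · simp [h, Ne.symm h]
  · simp [transvection, Matrix.single_apply, Matrix.one_apply, Fin.ext_iff]
  · simp [transvection, Matrix.single_apply, Matrix.one_apply, Fin.ext_iff]

/-- the first row -/
theorem sh_row {m : ℕ} (φ : Fin m → K) (s : Finset (Fin m)) :
    Sh s.card (blm 1 (∑ j ∈ s, Pi.single j (φ j)) 1) := by
  classical
  induction s using Finset.induction_on with
  | empty =>
    rw [Finset.sum_empty, blm_one]
    exact sh_one _
  | insert a s ha ih =>
    rw [Finset.sum_insert ha, Finset.card_insert_of_notMem ha]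
    have h2 := blm_mul (1 : K) 1 (∑ j ∈ s, Pi.single j (φ j)) (Pi.single a (φ a)) 1 1
    rw [one_smul, Matrix.vecMul_one, mul_one, mul_one] at h2
    rw [← h2, blm_single]
    exact ih.mul (sh_tr (Fin.succ_ne_zero a).symm _)

/-- clearing the first column -/
theorem clear_col {m : ℕ} (B : Matrix (Fin (m + 1)) (Fin (m + 1)) K) (hB : B.det = 1)
    (h0 : B 0 0 = 1) (s : Finset (Fin m)) :
    ∃ B' : Matrix (Fin (m + 1)) (Fin (m + 1)) K, (∀ N, Sh N B' → Sh (N + s.card) B) ∧
      B'.det = 1 ∧ B' 0 0 = 1 ∧ ∀ i ∈ s, B' i.succ 0 = 0 := by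
  classical
  induction s using Finset.induction_on with
  | empty => exact ⟨B, fun N h => h, hB, h0, fun i hi => absurd hi (Finset.notMem_empty _)⟩
  | insert a s ha ih =>
    obtain ⟨B', h1, h2, h3, h4⟩ := ih
    refine ⟨transvection a.succ 0 (-(B' a.succ 0)) * B', fun N h => ?_, ?_, ?_, ?_⟩
    · rw [Finset.card_insert_of_notMem ha]
      exact (h1 _ (h.left (Fin.succ_ne_zero a) _)).mono (by omega)
    · rw [Matrix.det_mul, det_transvection_of_ne _ _ (Fin.succ_ne_zero a), one_mul, h2]
    · rw [transvection_mul_apply_of_ne _ _ _ _ (Fin.succ_ne_zero a).symm, h3]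
    · intro i hi
      by_cases hia : i = a
      · rw [hia, transvection_mul_apply_same, h3, mul_one, add_neg_cancel]
      · rw [transvection_mul_apply_of_ne _ _ _ _ (fun h => hia (Fin.succ_injective _ h))]
        exact h4 i (Finset.mem_of_mem_insert_of_ne hi hia)

/-- making the first entry `1`, if the first column has another nonzero entry -/
theorem first_one {m : ℕ} (A : Matrix (Fin (m + 1)) (Fin (m + 1)) K) (hA : A.det = 1)
    (i : Fin m) (hi : A i.succ 0 ≠ 0) :
    ∃ B : Matrix (Fin (m + 1)) (Fin (m + 1)) K, (∀ N, Sh N B → Sh (N + 1) A) ∧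
      B.det = 1 ∧ B 0 0 = 1 := by
  have hne : (0 : Fin (m + 1)) ≠ i.succ := (Fin.succ_ne_zero i).symm
  refine ⟨transvection 0 i.succ ((1 - A 0 0) / A i.succ 0) * A, fun N h => h.left hne _, ?_, ?_⟩
  · rw [Matrix.det_mul, det_transvection_of_ne _ _ hne, one_mul, hA]
  · rw [transvection_mul_apply_same, div_mul_cancel₀ _ hi]
    ring

theorem first_one' {m : ℕ} (A : Matrix (Fin (m + 2)) (Fin (m + 2)) K) (hA : A.det = 1) :
    ∃ B : Matrix (Fin (m + 2)) (Fin (m + 2)) K, (∀ N, Sh N B → Sh (N + 2) A) ∧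
      B.det = 1 ∧ B 0 0 = 1 := by
  by_cases h : ∃ i : Fin (m + 1), A i.succ 0 ≠ 0
  · obtain ⟨i, hi⟩ := h
    obtain ⟨B, h1, h2, h3⟩ := first_one A hA i hi
    exact ⟨B, fun N h => (h1 N h).mono (by omega), h2, h3⟩
  · push Not at h
    have h0 : A 0 0 ≠ 0 := by
      intro h0
      rw [eq_blm A h, blm_det, h0, zero_mul] at hA
      exact zero_ne_one hA
    have hne : (0 : Fin (m + 1)).succ ≠ (0 : Fin (m + 2)) := Fin.succ_ne_zero _
    obtain ⟨B, h1, h2, h3⟩ := first_one (transvection (0 : Fin (m + 1)).succ 0 1 * A) (by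
      rw [Matrix.det_mul, det_transvection_of_ne _ _ hne, one_mul, hA]) 0 (by
      rw [transvection_mul_apply_same, h 0, zero_add, one_mul]
      exact h0)
    exact ⟨B, fun N h => ((h1 N h).left hne _), h2, h3⟩

theorem pf_BGN : BGN := by
  intro K _ m
  show ∃ N : ℕ, ∀ A : Matrix (Fin m) (Fin m) K, A.det = 1 → Sh N A
  induction m with
  | zero =>
    refine ⟨0, fun A _ => ?_⟩
    rw [Subsingleton.elim A 1]
    exact sh_one 0
  | succ m ih =>
    rcases m with _ | m
    · refine ⟨0, fun A hA => ?_⟩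
      have : A = 1 := by
        ext i j
        have hi : i = 0 := Fin.ext (by omega)
        have hj : j = 0 := Fin.ext (by omega)
        rw [hi, hj, Matrix.one_apply_eq]
        exact (Matrix.det_fin_one A).symm.trans hA
      rw [this]
      exact sh_one 0
    · obtain ⟨N, hN⟩ := ih
      refine ⟨N + (m + 1) + (m + 1) + 2, fun A hA => ?_⟩
      obtain ⟨B, h1, h2, h3⟩ := first_one' A hA
      obtain ⟨C, h4, h5, h6, h7⟩ := clear_col B h2 h3 Finset.univ
      refine h1 _ ?_
      have h8 := h4 (N + (m + 1)) ?_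
      · rw [Finset.card_univ, Fintype.card_fin] at h8
        exact h8
      have h9 := eq_blm C (fun i => h7 i (Finset.mem_univ i))
      rw [h6] at h9
      have hdet : (C.submatrix Fin.succ Fin.succ).det = 1 := by
        rw [h9, blm_det, one_mul] at h5
        exact h5
      have h10 := hN _ hdet
      have h11 := blm_mul (1 : K) 1 0 (fun j => C 0 j.succ) (C.submatrix Fin.succ Fin.succ) 1
      rw [one_smul, Matrix.zero_vecMul, add_zero, mul_one, mul_one] at h11
      rw [h9, ← h11]
      have h12 := sh_row (fun j => C 0 j.succ) Finset.univ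
      rw [Finset.card_univ, Fintype.card_fin, Finset.univ_sum_single] at h12
      exact h10.blm.mul h12

end Pool.Agent.H74.BCP
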