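import Pool.Agent.H77.BC.Targets

/-!
# MP_9d0bb7_lc, board bcp: row E2B

Definable subgroups of large rank of `GL_2`: the stabilizer of a line.
-/

set_option autoImplicit false

namespace Pool.Agent.H74.BCP

open Pool.Agent.H77.BC Matrix Set

section algebra

variable {K : Type} [Field K]

theorem mem_P {g : GL (Fin 2) K} : g ∈ Pv (e0 (k := 1)) ↔ g.val 1 0 = 0 := by
  constructor
  · rintro ⟨a, ha⟩
    have h1 := congrFun ha 1
    simpa [e0] using h1
  · intro h
    refine ⟨g.val 0 0, ?_⟩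
    funext i
    fin_cases i
    · simp [e0]
    · simpa [e0] using h

theorem mul_00 (g h : GL (Fin 2) K) :
    (g * h).val 0 0 = g.val 0 0 * h.val 0 0 + g.val 0 1 * h.val 1 0 := by
  rw [Units.val_mul, Matrix.mul_apply, Fin.sum_univ_two]

theorem mul_01 (g h : GL (Fin 2) K) :
    (g * h).val 0 1 = g.val 0 0 * h.val 0 1 + g.val 0 1 * h.val 1 1 := by
  rw [Units.val_mul, Matrix.mul_apply, Fin.sum_univ_two]

theorem mul_11 (g h : GL (Fin 2) K) :
    (g * h).val 1 1 = g.val 1 0 * h.val 0 1 + g.val 1 1 * h.val 1 1 := by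
  rw [Units.val_mul, Matrix.mul_apply, Fin.sum_univ_two]

theorem mul_10 (g h : GL (Fin 2) K) :
    (g * h).val 1 0 = g.val 1 0 * h.val 0 0 + g.val 1 1 * h.val 1 0 := by
  rw [Units.val_mul, Matrix.mul_apply, Fin.sum_univ_two]

theorem diag_ne {g : GL (Fin 2) K} (h : g.val 1 0 = 0) : g.val 0 0 ≠ 0 ∧ g.val 1 1 ≠ 0 := by
  have hd : g.val.det ≠ 0 := (Matrix.isUnits_det_units g).ne_zero
  rw [Matrix.det_fin_two, h, mul_zero, sub_zero] at hd
  exact ⟨left_ne_zero_of_mul hd, right_ne_zero_of_mul hd⟩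

theorem gl_ext {g h : GL (Fin 2) K} (h00 : g.val 0 0 = h.val 0 0) (h01 : g.val 0 1 = h.val 0 1)
    (h10 : g.val 1 0 = h.val 1 0) (h11 : g.val 1 1 = h.val 1 1) : g = h := by
  apply Units.ext
  ext i j
  fin_cases i <;> fin_cases j <;> assumption

/-- the transvection `[1, x; 0, 1]` -/
def tv (x : K) : GL (Fin 2) K := bl 1 (fun _ : Fin 1 => x) 1

theorem tv_00 (x : K) : (tv x).val 0 0 = 1 := rfl
theorem tv_10 (x : K) : (tv x).val 1 0 = 0 := rfl
theorem tv_01 (x : K) : (tv x).val 0 1 = x := rfl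
theorem tv_11 (x : K) : (tv x).val 1 1 = 1 := by
  show (1 : Matrix (Fin 1) (Fin 1) K) 0 0 = 1
  rw [Matrix.one_apply_eq]

theorem eq_tv {g : GL (Fin 2) K} (h00 : g.val 0 0 = 1) (h10 : g.val 1 0 = 0)
    (h11 : g.val 1 1 = 1) : g = tv (g.val 0 1) :=
  gl_ext (by rw [h00, tv_00]) (by rw [tv_01]) (by rw [h10, tv_10]) (by rw [h11, tv_11])

/-- two elements of `H ⊓ P` with the same diagonal -/
theorem same_diag {H : Subgroup (GL (Fin 2) K)} {g h : GL (Fin 2) K}
    (hg : g ∈ H ⊓ Pv (e0 (k := 1))) (hh : h ∈ H ⊓ Pv (e0 (k := 1)))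
    (h0 : g.val 0 0 = h.val 0 0) (h1 : g.val 1 1 = h.val 1 1) :
    ∃ x : K, (fun _ : Fin 1 => x) ∈ AA (k := 1) H ∧ g = tv x * h := by
  have hu : g * h⁻¹ ∈ H ⊓ Pv (e0 (k := 1)) := Subgroup.mul_mem _ hg (Subgroup.inv_mem _ hh)
  set u := g * h⁻¹ with hudef
  have huh : u * h = g := by rw [hudef, inv_mul_cancel_right]
  have hu10 := mem_P.1 (Subgroup.mem_inf.1 hu).2
  have hh10 := mem_P.1 (Subgroup.mem_inf.1 hh).2
  obtain ⟨d0, d1⟩ := diag_ne hh10
  have e0' : u.val 0 0 = 1 := by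
    have h2 := mul_00 u h
    rw [huh, hh10, mul_zero, add_zero, h0] at h2
    have h3 : (1 - u.val 0 0) * h.val 0 0 = 0 := by rw [sub_mul, one_mul, ← h2, sub_self]
    rcases mul_eq_zero.1 h3 with h4 | h4
    · exact (sub_eq_zero.1 h4).symm
    · exact absurd h4 d0
  have e1' : u.val 1 1 = 1 := by
    have h2 := mul_11 u h
    rw [huh, hu10, zero_mul, zero_add, h1] at h2
    have h3 : (1 - u.val 1 1) * h.val 1 1 = 0 := by rw [sub_mul, one_mul, ← h2, sub_self]
    rcases mul_eq_zero.1 h3 with h4 | h4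
    · exact (sub_eq_zero.1 h4).symm
    · exact absurd h4 d1
  have h5 := eq_tv e0' hu10 e1'
  refine ⟨u.val 0 1, ?_, ?_⟩
  · rw [mem_AA]
    show tv (u.val 0 1) ∈ H
    rw [← h5]
    exact (Subgroup.mem_inf.1 hu).1
  · rw [← h5, huh]

/-- the diagonal -/
def dg2 (g : GL (Fin 2) K) : K × K := (g.val 0 0, g.val 1 1)

/-- the algebra: if `H ⊓ P` maps bijectively onto the nonzero pairs -/
theorem of_bij {H : Subgroup (GL (Fin 2) K)} [Infinite K]
    (hsurj : ∀ a b : K, a ≠ 0 → b ≠ 0 → ∃ h ∈ H ⊓ Pv (e0 (k := 1)),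
      h.val 0 0 = a ∧ h.val 1 1 = b)
    (hfin : (AA (k := 1) H : Set (Fin 1 → K)).Finite) :
    ∃ v' : Fin 2 → K, (∀ a : K, v' ≠ a • e0 (k := 1)) ∧
      H ⊓ Pv (e0 (k := 1)) = Pv (e0 (k := 1)) ⊓ Pv v' := by
  classical
  -- `AA H` is trivial
  have hA0 : ∀ x : K, (fun _ : Fin 1 => x) ∈ AA (k := 1) H → x = 0 := by
    intro x hx
    by_contra hx0
    have hst : ∀ c : K, c ≠ 0 → (fun _ : Fin 1 => c * x) ∈ AA (k := 1) H := by
      intro c hc
      obtain ⟨h, hh, h0, h1⟩ := hsurj c 1 hc one_ne_zero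
      have hh10 := mem_P.1 (Subgroup.mem_inf.1 hh).2
      have hconj : tv (c * x) * h = h * tv x := by
        refine gl_ext ?_ ?_ ?_ ?_
        · rw [mul_00, mul_00, tv_00, tv_01, tv_00, tv_10, hh10, h0]
          ring
        · rw [mul_01, mul_01, tv_00, tv_01, tv_01, tv_11, h0, h1]
          ring
        · rw [mul_10, mul_10, tv_10, tv_11, tv_00, tv_10, hh10]
          ring
        · rw [mul_11, mul_11, tv_10, tv_11, tv_01, tv_11, hh10, h1]
          ring
      have h2 : tv (c * x) = h * tv x * h⁻¹ := by rw [← hconj, mul_inv_cancel_right]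
      rw [mem_AA]
      show tv (c * x) ∈ H
      rw [h2]
      exact H.mul_mem (H.mul_mem (Subgroup.mem_inf.1 hh).1 hx) (H.inv_mem (Subgroup.mem_inf.1 hh).1)
    have hinf : ({c : K | c ≠ 0} : Set K).Infinite := by
      have : ({c : K | c ≠ 0} : Set K) = ({0} : Set K)ᶜ := rfl
      rw [this]
      exact (Set.finite_singleton _).infinite_compl
    apply hinf
    refine Set.Finite.of_finite_image (f := fun c : K => (fun _ : Fin 1 => c * x))
      (hfin.subset ?_) ?_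
    · rintro _ ⟨c, hc, rfl⟩
      exact hst c hc
    · intro c _ c' _ hcc
      have := congrFun hcc 0
      exact mul_right_cancel₀ hx0 this
  have hinj : ∀ g ∈ H ⊓ Pv (e0 (k := 1)), ∀ h ∈ H ⊓ Pv (e0 (k := 1)),
      g.val 0 0 = h.val 0 0 → g.val 1 1 = h.val 1 1 → g = h := by
    intro g hg h hh h0 h1
    obtain ⟨x, hx, rfl⟩ := same_diag hg hh h0 h1
    rw [hA0 x hx]
    have : tv (0 : K) = 1 := by
      refine gl_ext ?_ ?_ ?_ ?_
      · rw [tv_00]; simp
      · rw [tv_01]; simp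
      · rw [tv_10]; simp
      · rw [tv_11]; simp
    rw [this, one_mul]
  obtain ⟨t, ht⟩ : ∃ t : K, t ∉ ({0, 1} : Finset K) := Infinite.exists_notMem_finset _
  rw [Finset.mem_insert, Finset.mem_singleton, not_or] at ht
  obtain ⟨h₀, hh₀, a0, b0⟩ := hsurj 1 t one_ne_zero ht.1
  have hd : t - 1 ≠ 0 := sub_ne_zero.2 ht.2
  have h₀10 := mem_P.1 (Subgroup.mem_inf.1 hh₀).2
  -- the relation of commutation
  have hcomm : ∀ h ∈ H ⊓ Pv (e0 (k := 1)),
      h.val 0 1 * (t - 1) = h₀.val 0 1 * (h.val 1 1 - h.val 0 0) := by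
    intro h hh
    have hh10 := mem_P.1 (Subgroup.mem_inf.1 hh).2
    have h1 : h * h₀ = h₀ * h := by
      refine hinj _ (Subgroup.mul_mem _ hh hh₀) _ (Subgroup.mul_mem _ hh₀ hh) ?_ ?_
      · rw [mul_00, mul_00, hh10, h₀10]
        ring
      · rw [mul_11, mul_11, hh10, h₀10]
        ring
    have h2 : (h * h₀).val 0 1 = (h₀ * h).val 0 1 := by rw [h1]
    rw [mul_01, mul_01, a0, b0] at h2
    linear_combination h2
  refine ⟨![h₀.val 0 1, t - 1], ?_, ?_⟩
  · intro a ha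
    have h1 := congrFun ha 1
    have h2 : (t - 1 : K) = 0 := by simpa [e0] using h1
    exact hd h2
  · ext g
    rw [Subgroup.mem_inf, Subgroup.mem_inf]
    constructor
    · rintro ⟨h1, h2⟩
      refine ⟨h2, g.val 1 1, ?_⟩
      have h3 := hcomm g (Subgroup.mem_inf.2 ⟨h1, h2⟩)
      have h4 := mem_P.1 h2
      funext i
      fin_cases i
      · show (g.val *ᵥ ![h₀.val 0 1, t - 1]) 0 = _
        rw [Matrix.mulVec, dotProduct, Fin.sum_univ_two]
        show g.val 0 0 * h₀.val 0 1 + g.val 0 1 * (t - 1) = g.val 1 1 * h₀.val 0 1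
        linear_combination h3
      · show (g.val *ᵥ ![h₀.val 0 1, t - 1]) 1 = _
        rw [Matrix.mulVec, dotProduct, Fin.sum_univ_two]
        show g.val 1 0 * h₀.val 0 1 + g.val 1 1 * (t - 1) = g.val 1 1 * (t - 1)
        rw [h4]
        ring
    · rintro ⟨h2, c, hc⟩
      have h4 := mem_P.1 h2
      obtain ⟨d0, d1⟩ := diag_ne h4
      obtain ⟨h, hh, e1, e2⟩ := hsurj _ _ d0 d1
      have h5 := hcomm h hh
      have hh10 := mem_P.1 (Subgroup.mem_inf.1 hh).2
      have c0 := congrFun hc 0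
      have c1 := congrFun hc 1
      rw [Matrix.mulVec, dotProduct, Fin.sum_univ_two] at c0 c1
      have c0' : g.val 0 0 * h₀.val 0 1 + g.val 0 1 * (t - 1) = c * h₀.val 0 1 := c0
      have c1' : g.val 1 0 * h₀.val 0 1 + g.val 1 1 * (t - 1) = c * (t - 1) := c1
      rw [h4, zero_mul, zero_add] at c1'
      have hcb : g.val 1 1 = c := mul_right_cancel₀ hd c1'
      have h6 : g.val 0 1 = h.val 0 1 := by
        apply mul_right_cancel₀ hd
        rw [h5, e1, e2]
        rw [← hcb] at c0'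
        linear_combination c0'
      have h7 : g = h := gl_ext e1.symm h6 (by rw [h4, hh10]) e2.symm
      rw [h7]
      exact ⟨(Subgroup.mem_inf.1 hh).1, (Subgroup.mem_inf.1 hh).2⟩

end algebra

set_option linter.unusedVariables false in
theorem pf_E2B {M : Type} (U : RU M) (hA : RKA U) (hB : RKB U) (hG : GRB U) (hV : RNV U)
    (hK : RKS U) (hL : RGL U) (hP : RPE U) (hC : ADC U) (hD : DGV U) (hR : REC U) : E2B U := by
  classical
  intro K _ _ _ _ hf H hH hr
  have hinfK : Infinite K := IsAlgClosed.instInfinite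
  have hR1 := hR (K := K) 1 H hH
  have hPe := hP (K := K) 1
  have hGL := hL (K := K) 2
  have hV1 := (hV (K := K) 1 1).1
  rw [hf] at hPe hGL hV1
  set P : Subgroup (GL (Fin 2) K) := Pv (e0 (k := 1)) with hPdef
  have hPD : U.D (P : Set (GL (Fin 2) K)) := hPe.1
  have hPR : U.R (P : Set (GL (Fin 2) K)) = 3 := hPe.2
  have hTR : U.R (univ : Set (GL (Fin 2) K)) = 4 := hGL
  have hHP : 2 ≤ U.R ((H ⊓ P : Subgroup (GL (Fin 2) K)) : Set (GL (Fin 2) K)) := by
    have h1 := hG (⊤ : Subgroup (GL (Fin 2) K)) H P (by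
      rw [Subgroup.coe_top]
      exact Ful.full) hH hPD le_top le_top
    rw [Subgroup.coe_top, hPR, hTR] at h1
    omega
  have hHPD : U.D ((H ⊓ P : Subgroup (GL (Fin 2) K)) : Set (GL (Fin 2) K)) := by
    rw [Subgroup.coe_inf]
    exact D_inter hH hPD
  have hne : ((H ⊓ P : Subgroup (GL (Fin 2) K)) : Set (GL (Fin 2) K)).Nonempty :=
    ⟨1, Subgroup.one_mem _⟩
  have hAD : U.D (AA (k := 1) H : Set (Fin 1 → K)) := hR1.2.1
  have hAne : (AA (k := 1) H : Set (Fin 1 → K)).Nonempty := ⟨0, AddSubgroup.zero_mem _⟩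
  rcases Nat.eq_zero_or_pos (U.R (AA (k := 1) H : Set (Fin 1 → K))) with h0 | h0
  · right
    have hfin := (hA.fin hAD hAne).1 h0
    -- the diagonal map
    have hdf : DFn U (dg2 : GL (Fin 2) K → K × K) :=
      DFn_pair (DFn_comp (DFn_entry 0 0) DFn_val) (DFn_comp (DFn_entry 1 1) DFn_val)
    have hfib : U.R ((H ⊓ P : Subgroup (GL (Fin 2) K)) : Set (GL (Fin 2) K)) =
        U.R (dg2 '' ((H ⊓ P : Subgroup (GL (Fin 2) K)) : Set (GL (Fin 2) K))) + 0 := by
      refine hB.fib_eq hHPD hdf hne ?_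
      rintro b ⟨g, hg, rfl⟩
      refine (hA.fin (D_and hHPD (D_eqf hdf (DFn_const _))) ⟨g, hg, rfl⟩).2 ?_
      refine (hfin.image (fun φ : Fin 1 → K => tv (φ 0) * g)).subset ?_
      rintro h ⟨hh, hhg⟩
      have h1 : h.val 0 0 = g.val 0 0 := congrArg Prod.fst hhg
      have h2 : h.val 1 1 = g.val 1 1 := congrArg Prod.snd hhg
      obtain ⟨x, hx, rfl⟩ := same_diag hh hg h1 h2
      exact ⟨_, hx, rfl⟩
    rw [add_zero] at hfib
    set T : Set (K × K) := dg2 '' ((H ⊓ P : Subgroup (GL (Fin 2) K)) : Set (GL (Fin 2) K)) with hT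
    have hTD : U.D T := DFn_image hdf hHPD
    have hTne : T.Nonempty := hne.image _
    have hKK : U.R (univ : Set (K × K)) = 2 := by
      have h1 := hB.prod (X := (univ : Set K)) (Y := (univ : Set K)) Ful.full Ful.full
        ⟨0, mem_univ _⟩ ⟨0, mem_univ _⟩
      rw [univ_prod_univ, hf] at h1
      exact h1
    have hTR2 : U.R (univ : Set (K × K)) ≤ U.R T := by
      rw [hKK, ← hfib]
      exact hHP
    refine of_bij (fun a b ha hb => ?_) hfin
    have hσ : DFn U (fun p : K × K => (a * p.1, b * p.2)) :=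
      DFn_pair (DFn_mul (DFn_const a) DFn_fst) (DFn_mul (DFn_const b) DFn_snd)
    have hσT : U.R ((fun p : K × K => (a * p.1, b * p.2)) '' T) = U.R T := by
      refine hB.inj hTD hσ hTne ?_
      rintro ⟨x, y⟩ _ ⟨x', y'⟩ _ h
      have h1 : a * x = a * x' := congrArg Prod.fst h
      have h2 : b * y = b * y' := congrArg Prod.snd h
      rw [mul_left_cancel₀ ha h1, mul_left_cancel₀ hb h2]
    obtain ⟨z, hz1, hz2⟩ := hD K T ((fun p : K × K => (a * p.1, b * p.2)) '' T) hTD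
      (DFn_image hσ hTD) hTne (hTne.image _) hTR2 (by rw [hσT]; exact hTR2)
    obtain ⟨g, hg, hgz⟩ := hz1
    obtain ⟨_, ⟨h, hh, rfl⟩, hhz⟩ := hz2
    have hg' : g ∈ H ⊓ P := hg
    have hh' : h ∈ H ⊓ P := hh
    have h1 : g.val 0 0 = a * h.val 0 0 := (congrArg Prod.fst (hgz.trans hhz.symm))
    have h2 : g.val 1 1 = b * h.val 1 1 := (congrArg Prod.snd (hgz.trans hhz.symm))
    have hu : g * h⁻¹ ∈ H ⊓ P := Subgroup.mul_mem _ hg' (Subgroup.inv_mem _ hh')
    set u := g * h⁻¹ with hudef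
    have huh : u * h = g := by rw [hudef, inv_mul_cancel_right]
    have hu10 := mem_P.1 (Subgroup.mem_inf.1 hu).2
    have hh10 := mem_P.1 (Subgroup.mem_inf.1 hh').2
    obtain ⟨d0, d1⟩ := diag_ne hh10
    refine ⟨u, hu, ?_, ?_⟩
    · have h3 := mul_00 u h
      rw [huh, hh10, mul_zero, add_zero, h1] at h3
      exact (mul_right_cancel₀ d0 h3).symm
    · have h3 := mul_11 u h
      rw [huh, hu10, zero_mul, zero_add, h2] at h3
      exact (mul_right_cancel₀ d1 h3).symm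
  · left
    have htop : AA (k := 1) H = ⊤ := by
      refine hC K (V := Fin 1 → K) (AA (k := 1) H) hAD ?_
      rw [hV1]
      exact h0
    intro φ hφ
    have hφ0 : φ 0 = 0 := by
      simpa [e0] using hφ
    have hmem : (fun _ : Fin 1 => φ 1) ∈ AA (k := 1) H := by
      rw [htop]
      exact AddSubgroup.mem_top _
    refine ⟨tv (φ 1), hmem, ?_⟩
    ext i j
    rw [Matrix.add_apply, Matrix.vecMulVec_apply]
    fin_cases i <;> fin_cases j
    · show (tv (φ 1)).val 0 0 = (1 : Matrix (Fin 2) (Fin 2) K) 0 0 + e0 (k := 1) 0 * φ 0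
      rw [tv_00, hφ0]
      simp
    · show (tv (φ 1)).val 0 1 = (1 : Matrix (Fin 2) (Fin 2) K) 0 1 + e0 (k := 1) 0 * φ 1
      rw [tv_01]
      simp [e0]
    · show (tv (φ 1)).val 1 0 = (1 : Matrix (Fin 2) (Fin 2) K) 1 0 + e0 (k := 1) 1 * φ 0
      rw [tv_10]
      simp [e0]
    · show (tv (φ 1)).val 1 1 = (1 : Matrix (Fin 2) (Fin 2) K) 1 1 + e0 (k := 1) 1 * φ 1
      rw [tv_11]
      simp [e0]

end Pool.Agent.H74.BCP
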